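import Pool.Agent.Helper38.EC.Goals

/-!
# MP_ecc237_nt, Part I, packet FIN: the final step
-/

set_option autoImplicit false

open MeasureTheory Filter Topology Set Complex

namespace Pool.Agent.Helper11.EC.I_FIN

open EC237 EC237.PI

/-! ### Powers of `iπ/2` -/

theorem c2 : (I * ((Real.pi : ℂ) / 2)) ^ 2 = -((Real.pi : ℂ) / 2) ^ 2 := by
  rw [mul_pow, I_sq]; ring

theorem c3 : (I * ((Real.pi : ℂ) / 2)) ^ 3 = -((Real.pi : ℂ) / 2) ^ 3 * I := by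
  rw [mul_pow, I_pow_three]; ring

theorem c4 : (I * ((Real.pi : ℂ) / 2)) ^ 4 = ((Real.pi : ℂ) / 2) ^ 4 := by
  rw [mul_pow, I_pow_four]; ring

theorem c5 : (I * ((Real.pi : ℂ) / 2)) ^ 5 = ((Real.pi : ℂ) / 2) ^ 5 * I := by
  rw [pow_succ, c4]; ring

theorem c6 : (I * ((Real.pi : ℂ) / 2)) ^ 6 = -((Real.pi : ℂ) / 2) ^ 6 := by
  have h : (I * ((Real.pi : ℂ) / 2)) ^ 6 =
      (I * ((Real.pi : ℂ) / 2)) ^ 4 * (I * ((Real.pi : ℂ) / 2)) ^ 2 := by ring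
  rw [h, c4, c2]; ring

theorem ch : Nat.choose 3 0 = 1 ∧ Nat.choose 3 1 = 3 ∧ Nat.choose 3 2 = 3 ∧ Nat.choose 3 3 = 1 ∧
    Nat.choose 4 0 = 1 ∧ Nat.choose 4 1 = 4 ∧ Nat.choose 4 2 = 6 ∧ Nat.choose 4 3 = 4 ∧
    Nat.choose 4 4 = 1 ∧ Nat.choose 5 0 = 1 ∧ Nat.choose 5 1 = 5 ∧ Nat.choose 5 2 = 10 ∧
    Nat.choose 5 3 = 10 ∧ Nat.choose 5 4 = 5 ∧ Nat.choose 5 5 = 1 ∧ Nat.choose 6 0 = 1 ∧
    Nat.choose 6 1 = 6 ∧ Nat.choose 6 2 = 15 ∧ Nat.choose 6 3 = 20 ∧ Nat.choose 6 4 = 15 ∧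
    Nat.choose 6 5 = 6 ∧ Nat.choose 6 6 = 1 := by decide

/-- The sum `Σ C(b,j) (iπ/2)^{b-j} x_j`. -/
noncomputable def sm (x : ℕ → ℝ) (b : ℕ) : ℂ :=
  ∑ j ∈ Finset.range (b + 1), (b.choose j : ℂ) * (I * (Real.pi / 2)) ^ (b - j) * (x j : ℂ)

theorem sm3 (x : ℕ → ℝ) : sm x 3 = ((x 3 - 3 * (Real.pi / 2) ^ 2 * x 1 : ℝ) : ℂ) +
    ((3 * (Real.pi / 2) * x 2 - (Real.pi / 2) ^ 3 * x 0 : ℝ) : ℂ) * I := by
  obtain ⟨h0, h1, h2, h3, -⟩ := ch
  simp only [sm, Finset.sum_range_succ, Finset.sum_range_zero, h0, h1, h2, h3, Nat.sub_zero,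
    Nat.sub_self, show 3 - 1 = 2 from rfl, show 3 - 2 = 1 from rfl, c3, c2, pow_one, pow_zero]
  push_cast
  ring

theorem sm4 (x : ℕ → ℝ) : sm x 4 =
    ((x 4 - 6 * (Real.pi / 2) ^ 2 * x 2 + (Real.pi / 2) ^ 4 * x 0 : ℝ) : ℂ) +
    ((4 * (Real.pi / 2) * x 3 - 4 * (Real.pi / 2) ^ 3 * x 1 : ℝ) : ℂ) * I := by
  obtain ⟨-, -, -, -, h0, h1, h2, h3, h4, -⟩ := ch
  simp only [sm, Finset.sum_range_succ, Finset.sum_range_zero, h0, h1, h2, h3, h4, Nat.sub_zero,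
    Nat.sub_self, show 4 - 1 = 3 from rfl, show 4 - 2 = 2 from rfl, show 4 - 3 = 1 from rfl,
    c4, c3, c2, pow_one, pow_zero]
  push_cast
  ring

theorem sm5 (x : ℕ → ℝ) : sm x 5 =
    ((x 5 - 10 * (Real.pi / 2) ^ 2 * x 3 + 5 * (Real.pi / 2) ^ 4 * x 1 : ℝ) : ℂ) +
    ((5 * (Real.pi / 2) * x 4 - 10 * (Real.pi / 2) ^ 3 * x 2 + (Real.pi / 2) ^ 5 * x 0 : ℝ) : ℂ)
      * I := by
  obtain ⟨-, -, -, -, -, -, -, -, -, h0, h1, h2, h3, h4, h5, -⟩ := ch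
  simp only [sm, Finset.sum_range_succ, Finset.sum_range_zero, h0, h1, h2, h3, h4, h5,
    Nat.sub_zero, Nat.sub_self, show 5 - 1 = 4 from rfl, show 5 - 2 = 3 from rfl,
    show 5 - 3 = 2 from rfl, show 5 - 4 = 1 from rfl, c5, c4, c3, c2, pow_one, pow_zero]
  push_cast
  ring

theorem sm6 (x : ℕ → ℝ) : sm x 6 =
    ((x 6 - 15 * (Real.pi / 2) ^ 2 * x 4 + 15 * (Real.pi / 2) ^ 4 * x 2 -
      (Real.pi / 2) ^ 6 * x 0 : ℝ) : ℂ) +
    ((6 * (Real.pi / 2) * x 5 - 20 * (Real.pi / 2) ^ 3 * x 3 + 6 * (Real.pi / 2) ^ 5 * x 1 : ℝ) :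
      ℂ) * I := by
  obtain ⟨-, -, -, -, -, -, -, -, -, -, -, -, -, -, -, h0, h1, h2, h3, h4, h5, h6⟩ := ch
  simp only [sm, Finset.sum_range_succ, Finset.sum_range_zero, h0, h1, h2, h3, h4, h5, h6,
    Nat.sub_zero, Nat.sub_self, show 6 - 1 = 5 from rfl, show 6 - 2 = 4 from rfl,
    show 6 - 3 = 3 from rfl, show 6 - 4 = 2 from rfl, show 6 - 5 = 1 from rfl, c6, c5, c4, c3, c2,
    pow_one, pow_zero]
  push_cast
  ring

theorem gb_eq (b : ℕ) : gb b = sm aj b := rfl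

theorem cb_eq (A : ℕ → ℝ) (b : ℕ) :
    cb A b = sm A b - (I * (Real.pi / 2)) ^ (b + 1) / ((b : ℂ) + 1) := rfl

theorem re_im (x y : ℝ) : ((x : ℂ) + (y : ℂ) * I).re = x ∧ ((x : ℂ) + (y : ℂ) * I).im = y := by
  constructor <;> simp

/-- A real number equal to minus a complex number. -/
theorem split {w x y : ℝ} (h : (w : ℂ) = -((x : ℂ) + (y : ℂ) * I)) : w = -x ∧ y = 0 := by
  have h1 := congrArg Complex.re h
  have h2 := congrArg Complex.im h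
  rw [Complex.neg_re, (re_im x y).1, Complex.ofReal_re] at h1
  rw [Complex.neg_im, (re_im x y).2, Complex.ofReal_im] at h2
  exact ⟨h1, by linarith⟩

/-! ### The integrals of `H_p` -/

theorem pos_Qd {t : ℝ} (ht : 0 < t) : (t : ℂ) ∈ Qd := by
  refine ⟨by simpa using ht.le, by simp, ?_⟩
  exact_mod_cast ht.ne'

theorem hint (hreg : G_HREG) {p : ℤ} (hp : p = 1 ∨ p = -1) {k : ℕ} (hk : 1 ≤ k) {R : ℝ}
    (hR : 1 ≤ R) : IntervalIntegrable (fun t : ℝ => (t : ℂ) ^ k * Hp p t) volume 0 R := by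
  obtain ⟨hc, -, C, hC⟩ := hreg p hp
  have hcont : ContinuousOn (fun t : ℝ => (t : ℂ) ^ k * Hp p t) (Ioi 0) := by
    apply ContinuousOn.mul (by fun_prop)
    exact hc.comp Complex.continuous_ofReal.continuousOn fun t ht => pos_Qd ht
  have h1 : IntervalIntegrable (fun t : ℝ => (t : ℂ) ^ k * Hp p t) volume 0 1 := by
    rw [intervalIntegrable_iff_integrableOn_Ioc_of_le zero_le_one]
    have : IsFiniteMeasure (volume.restrict (Ioc (0:ℝ) 1)) := ⟨by simp⟩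
    refine Integrable.of_bound (C := |C|) ?_ ?_
    · exact (hcont.mono Ioc_subset_Ioi_self).aestronglyMeasurable measurableSet_Ioc
    · refine (ae_restrict_iff' measurableSet_Ioc).2 (ae_of_all _ fun t ht => ?_)
      have ht0 : 0 < t := ht.1
      have hn : ‖(t : ℂ)‖ = t := by
        rw [Complex.norm_real, Real.norm_eq_abs, abs_of_pos ht0]
      have hb := hC t (pos_Qd ht0) (by rw [hn]; exact ht.2)
      rw [hn] at hb
      rw [norm_mul, norm_pow, hn]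
      have e1 : t ^ k ≤ t := by
        calc t ^ k ≤ t ^ 1 := pow_le_pow_of_le_one ht0.le ht.2 hk
          _ = t := pow_one t
      have e2 : C * t ^ (-(3 / 4) : ℝ) ≤ |C| * t ^ (-(3 / 4) : ℝ) :=
        mul_le_mul_of_nonneg_right (le_abs_self C) (Real.rpow_nonneg ht0.le _)
      calc t ^ k * ‖Hp p t‖ ≤ t * (|C| * t ^ (-(3 / 4) : ℝ)) :=
            mul_le_mul e1 (hb.trans e2) (norm_nonneg _) ht0.le
        _ = |C| * (t ^ (1 : ℝ) * t ^ (-(3 / 4) : ℝ)) := by rw [Real.rpow_one]; ring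
        _ = |C| * t ^ (1 + (-(3 / 4)) : ℝ) := by rw [Real.rpow_add ht0]
        _ ≤ |C| * 1 := by
            apply mul_le_mul_of_nonneg_left _ (abs_nonneg _)
            exact Real.rpow_le_one ht0.le ht.2 (by norm_num)
        _ = |C| := mul_one _
  refine h1.trans ?_
  apply ContinuousOn.intervalIntegrable
  rw [uIcc_of_le hR]
  exact hcont.mono fun t ht => lt_of_lt_of_le one_pos ht.1

theorem him (hreg : G_HREG) {p : ℤ} (hp : p = 1 ∨ p = -1) {k : ℕ} (hk : 1 ≤ k) {R : ℝ}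
    (hR : 1 ≤ R) : (∫ t in (0:ℝ)..R, (t : ℂ) ^ k * Hp p t).im =
      ∫ t in (0:ℝ)..R, t ^ k * (Hp p t).im := by
  have h := Complex.imCLM.intervalIntegral_comp_comm (hint hreg hp hk hR)
  rw [Complex.imCLM_apply] at h
  rw [← h]
  apply intervalIntegral.integral_congr
  intro t _
  simp only [Complex.imCLM_apply]
  rw [← Complex.ofReal_pow, Complex.im_ofReal_mul]

/-- The limit of the integral of the imaginary part. -/
theorem hlim (hreg : G_HREG) {p : ℤ} (hp : p = 1 ∨ p = -1) {k : ℕ} (hk : 1 ≤ k) {v : ℝ}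
    (h : Tendsto (fun R : ℝ => (∫ t in (0:ℝ)..R, (t : ℂ) ^ k * Hp p t).im) atTop (𝓝 v))
    {g : ℝ → ℝ} (hg : IntegrableOn g (Ioi 0)) (hgt : ∀ t : ℝ, 0 < t → t ^ k * (Hp p t).im = g t) :
    ∫ t in Ioi (0:ℝ), g t = v := by
  have h1 := intervalIntegral_tendsto_integral_Ioi (0:ℝ) hg tendsto_id
  refine tendsto_nhds_unique h1 (h.congr' ?_)
  filter_upwards [eventually_ge_atTop (1:ℝ)] with R hR
  rw [him hreg hp hk hR]
  simp only [id]
  rw [intervalIntegral.integral_of_le (by linarith), intervalIntegral.integral_of_le (by linarith)]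
  exact setIntegral_congr_fun measurableSet_Ioc fun t ht => hgt t ht.1

theorem lin2 {f g : ℝ → ℝ} (hf : IntegrableOn f (Ioi 0)) (hg : IntegrableOn g (Ioi 0)) (a b : ℝ) :
    IntegrableOn (fun x => a * f x - b * g x) (Ioi 0) ∧
    ∫ x in Ioi (0:ℝ), (a * f x - b * g x) = a * (∫ x in Ioi (0:ℝ), f x) -
      b * ∫ x in Ioi (0:ℝ), g x := by
  have h1 : Integrable (fun x => a * f x) (volume.restrict (Ioi 0)) := hf.const_mul a
  have h2 : Integrable (fun x => b * g x) (volume.restrict (Ioi 0)) := hg.const_mul b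
  refine ⟨h1.sub h2, ?_⟩
  rw [integral_sub h1 h2, integral_const_mul, integral_const_mul]

theorem lin3 {f g h : ℝ → ℝ} (hf : IntegrableOn f (Ioi 0)) (hg : IntegrableOn g (Ioi 0))
    (hh : IntegrableOn h (Ioi 0)) (a b c : ℝ) :
    IntegrableOn (fun x => a * f x + b * g x - c * h x) (Ioi 0) ∧
    ∫ x in Ioi (0:ℝ), (a * f x + b * g x - c * h x) = a * (∫ x in Ioi (0:ℝ), f x) +
      b * (∫ x in Ioi (0:ℝ), g x) - c * ∫ x in Ioi (0:ℝ), h x := by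
  have h1 : Integrable (fun x => a * f x) (volume.restrict (Ioi 0)) := hf.const_mul a
  have h2 : Integrable (fun x => b * g x) (volume.restrict (Ioi 0)) := hg.const_mul b
  have h3 : Integrable (fun x => c * h x) (volume.restrict (Ioi 0)) := hh.const_mul c
  have h12 : Integrable (fun x => a * f x + b * g x) (volume.restrict (Ioi 0)) := h1.add h2
  refine ⟨h12.sub h3, ?_⟩
  rw [integral_sub h12 h3, integral_add h1 h2, integral_const_mul, integral_const_mul,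
    integral_const_mul]

/-- The final algebra. -/
theorem alg {q a0 a1 a2 a3 a4 a5 A0 A1 A2 A4 w41 w43 w51 w53 w61 w63 J : ℝ} (hq : 0 < q)
    (e1 : 15 * q * a1 * w43 - 3 * q * a0 * w53 = 5 * q / 32)
    (e2 : q / 2 * w61 + 3 * q * A0 * w51 - (15 * q * A1 + 5 * q ^ 3 / 8) * w41 = 0)
    (e3 : q / 2 * w63 + 3 * q * A0 * w53 - (15 * q * A1 + 5 * q ^ 3 / 8) * w43 = 0)
    (i3 : 3 * (q / 2) * a2 - (q / 2) ^ 3 * a0 = 0)
    (i4 : 4 * (q / 2) * a3 - 4 * (q / 2) ^ 3 * a1 = 0)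
    (i5 : 5 * (q / 2) * a4 - 10 * (q / 2) ^ 3 * a2 + (q / 2) ^ 5 * a0 = 0)
    (i6 : 6 * (q / 2) * a5 - 20 * (q / 2) ^ 3 * a3 + 6 * (q / 2) ^ 5 * a1 = 0)
    (r4 : w41 = -(a4 - 6 * (q / 2) ^ 2 * a2 + (q / 2) ^ 4 * a0))
    (r5 : w51 = -(a5 - 10 * (q / 2) ^ 2 * a3 + 5 * (q / 2) ^ 4 * a1))
    (j3 : 3 * (q / 2) * A2 - (q / 2) ^ 3 * A0 = 0)
    (j5 : 5 * (q / 2) * A4 - 10 * (q / 2) ^ 3 * A2 + (q / 2) ^ 5 * A0 = 0)
    (hJ : J = A4 - 6 * (q / 2) ^ 2 * A2 + (q / 2) ^ 4 * A0) :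
    w61 * w43 - w63 * w41 = 5 / 16 * J := by
  have hq' : q ≠ 0 := hq.ne'
  have k2 : a2 = q ^ 2 / 12 * a0 := by
    apply mul_left_cancel₀ hq'
    linear_combination (2 / 3) * i3
  have k3 : a3 = q ^ 2 / 4 * a1 := by
    apply mul_left_cancel₀ hq'
    linear_combination (1 / 2) * i4
  have k4 : a4 = 7 * q ^ 4 / 240 * a0 := by
    apply mul_left_cancel₀ hq'
    rw [k2] at i5
    linear_combination (2 / 5) * i5
  have k5 : a5 = 7 * q ^ 4 / 48 * a1 := by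
    apply mul_left_cancel₀ hq'
    rw [k3] at i6
    linear_combination (1 / 3) * i6
  have l2 : A2 = q ^ 2 / 12 * A0 := by
    apply mul_left_cancel₀ hq'
    linear_combination (2 / 3) * j3
  have l4 : A4 = 7 * q ^ 4 / 240 * A0 := by
    apply mul_left_cancel₀ hq'
    rw [l2] at j5
    linear_combination (2 / 5) * j5
  have m4 : w41 = q ^ 4 / 30 * a0 := by rw [r4, k2, k4]; ring
  have m5 : w51 = q ^ 4 / 6 * a1 := by rw [r5, k3, k5]; ring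
  have mJ : J = -(q ^ 4 / 30 * A0) := by rw [hJ, l2, l4]; ring
  have f1 : 15 * a1 * w43 - 3 * a0 * w53 = 5 / 32 := by
    apply mul_left_cancel₀ hq'
    linear_combination e1
  have f2 : w61 = 2 * ((15 * A1 + 5 * q ^ 2 / 8) * w41 - 3 * A0 * w51) := by
    apply mul_left_cancel₀ hq'
    linear_combination 2 * e2
  have f3 : w63 = 2 * ((15 * A1 + 5 * q ^ 2 / 8) * w43 - 3 * A0 * w53) := by
    apply mul_left_cancel₀ hq'
    linear_combination 2 * e3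
  rw [f2, f3, mJ, m4, m5]
  linear_combination (-(q ^ 4 / 15) * A0) * f1

theorem thm (ax : G_AX) (rect : G_RECT) (imh : G_IMH) (rot : G_ROT) (rp : G_RP)
    (hreg : G_HREG) : G_FIN := by
  obtain ⟨A, hA⟩ := ax.1
  obtain ⟨rc1, rc2, rc3⟩ := rect
  obtain ⟨-, -, -, rp4, rp5⟩ := rp
  -- integrability
  have i41 : IntegrableOn (fun x : ℝ => Ib x ^ 2 * Kb x ^ 4 * x) (Ioi 0) :=
    (rp4 4 (by norm_num) (by norm_num)).congr_fun
      (fun x _ => by show Kb x ^ 4 * Ib x ^ 2 * x = Ib x ^ 2 * Kb x ^ 4 * x; ring) measurableSet_Ioi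
  have i51 : IntegrableOn (fun x : ℝ => Ib x * Kb x ^ 5 * x) (Ioi 0) :=
    (rp4 5 (by norm_num) (by norm_num)).congr_fun
      (fun x _ => by show Kb x ^ 5 * Ib x ^ 1 * x = Ib x * Kb x ^ 5 * x; ring) measurableSet_Ioi
  have i61 : IntegrableOn (fun x : ℝ => Kb x ^ 6 * x) (Ioi 0) :=
    (rp4 6 (by norm_num) (by norm_num)).congr_fun
      (fun x _ => by show Kb x ^ 6 * Ib x ^ 0 * x = Kb x ^ 6 * x; ring) measurableSet_Ioi
  have i43 : IntegrableOn (fun x : ℝ => Ib x ^ 2 * Kb x ^ 4 * x ^ 3) (Ioi 0) :=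
    (rp5 4 (by norm_num) (by norm_num)).congr_fun
      (fun x _ => by show Kb x ^ 4 * Ib x ^ 2 * x ^ 3 = Ib x ^ 2 * Kb x ^ 4 * x ^ 3; ring)
      measurableSet_Ioi
  have i53 : IntegrableOn (fun x : ℝ => Ib x * Kb x ^ 5 * x ^ 3) (Ioi 0) :=
    (rp5 5 (by norm_num) (by norm_num)).congr_fun
      (fun x _ => by show Kb x ^ 5 * Ib x ^ 1 * x ^ 3 = Ib x * Kb x ^ 5 * x ^ 3; ring)
      measurableSet_Ioi
  have i63 : IntegrableOn (fun x : ℝ => Kb x ^ 6 * x ^ 3) (Ioi 0) :=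
    (rp5 6 (by norm_num) (by norm_num)).congr_fun
      (fun x _ => by show Kb x ^ 6 * Ib x ^ 0 * x ^ 3 = Kb x ^ 6 * x ^ 3; ring) measurableSet_Ioi
  -- the three relations
  have e1 : 15 * Real.pi * aj 1 * (∫ x in Ioi (0:ℝ), Ib x ^ 2 * Kb x ^ 4 * x ^ 3) -
      3 * Real.pi * aj 0 * (∫ x in Ioi (0:ℝ), Ib x * Kb x ^ 5 * x ^ 3) = 5 * Real.pi / 32 := by
    have hl := lin2 i43 i53 (15 * Real.pi * aj 1) (3 * Real.pi * aj 0)
    exact hl.2.symm.trans (hlim hreg (Or.inl rfl) (by norm_num : 1 ≤ 3) rc1 hl.1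
      fun t ht => by rw [(imh A hA t ht).1]; ring)
  have e2 : Real.pi / 2 * (∫ x in Ioi (0:ℝ), Kb x ^ 6 * x) +
      3 * Real.pi * A 0 * (∫ x in Ioi (0:ℝ), Ib x * Kb x ^ 5 * x) -
      (15 * Real.pi * A 1 + 5 * Real.pi ^ 3 / 8) *
        (∫ x in Ioi (0:ℝ), Ib x ^ 2 * Kb x ^ 4 * x) = 0 := by
    have hl := lin3 i61 i51 i41 (Real.pi / 2) (3 * Real.pi * A 0)
      (15 * Real.pi * A 1 + 5 * Real.pi ^ 3 / 8)
    exact hl.2.symm.trans (hlim hreg (Or.inr rfl) (le_refl 1) (by simpa using rc2) hl.1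
      fun t ht => by rw [(imh A hA t ht).2]; ring)
  have e3 : Real.pi / 2 * (∫ x in Ioi (0:ℝ), Kb x ^ 6 * x ^ 3) +
      3 * Real.pi * A 0 * (∫ x in Ioi (0:ℝ), Ib x * Kb x ^ 5 * x ^ 3) -
      (15 * Real.pi * A 1 + 5 * Real.pi ^ 3 / 8) *
        (∫ x in Ioi (0:ℝ), Ib x ^ 2 * Kb x ^ 4 * x ^ 3) = 0 := by
    have hl := lin3 i63 i53 i43 (Real.pi / 2) (3 * Real.pi * A 0)
      (15 * Real.pi * A 1 + 5 * Real.pi ^ 3 / 8)
    exact hl.2.symm.trans (hlim hreg (Or.inr rfl) (by norm_num : 1 ≤ 3) rc3 hl.1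
      fun t ht => by rw [(imh A hA t ht).2]; ring)
  -- rotation relations
  have r3 := split (((rot A hA 3 le_rfl (by norm_num)).1).trans (by rw [gb_eq, sm3]))
  have r4 := split (((rot A hA 4 (by norm_num) (by norm_num)).1).trans (by rw [gb_eq, sm4]))
  have r5 := split (((rot A hA 5 (by norm_num) (by norm_num)).1).trans (by rw [gb_eq, sm5]))
  have r6 := split (((rot A hA 6 (by norm_num) (by norm_num)).1).trans (by rw [gb_eq, sm6]))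
  have w4 : (∫ x in Ioi (0:ℝ), Kb x ^ 4 * Ib x ^ (6 - 4) * x) =
      ∫ x in Ioi (0:ℝ), Ib x ^ 2 * Kb x ^ 4 * x :=
    setIntegral_congr_fun measurableSet_Ioi fun x _ => by
      show Kb x ^ 4 * Ib x ^ 2 * x = Ib x ^ 2 * Kb x ^ 4 * x
      ring
  have w5 : (∫ x in Ioi (0:ℝ), Kb x ^ 5 * Ib x ^ (6 - 5) * x) =
      ∫ x in Ioi (0:ℝ), Ib x * Kb x ^ 5 * x :=
    setIntegral_congr_fun measurableSet_Ioi fun x _ => by
      show Kb x ^ 5 * Ib x ^ 1 * x = Ib x * Kb x ^ 5 * x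
      ring
  have j3 : 3 * (Real.pi / 2) * A 2 - (Real.pi / 2) ^ 3 * A 0 = 0 := by
    have h := (rot A hA 3 le_rfl (by norm_num)).2.1
    have e : cb A 3 = ((A 3 - 3 * (Real.pi / 2) ^ 2 * A 1 - (Real.pi / 2) ^ 4 / 4 : ℝ) : ℂ) +
        ((3 * (Real.pi / 2) * A 2 - (Real.pi / 2) ^ 3 * A 0 : ℝ) : ℂ) * I := by
      rw [cb_eq, sm3, show 3 + 1 = 4 from rfl, c4]
      push_cast
      ring
    rw [e, (re_im _ _).2] at h
    exact h
  have j5 : 5 * (Real.pi / 2) * A 4 - 10 * (Real.pi / 2) ^ 3 * A 2 + (Real.pi / 2) ^ 5 * A 0 =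
      0 := by
    have h := (rot A hA 5 (by norm_num) (by norm_num)).2.1
    have e : cb A 5 = ((A 5 - 10 * (Real.pi / 2) ^ 2 * A 3 + 5 * (Real.pi / 2) ^ 4 * A 1 +
        (Real.pi / 2) ^ 6 / 6 : ℝ) : ℂ) +
        ((5 * (Real.pi / 2) * A 4 - 10 * (Real.pi / 2) ^ 3 * A 2 + (Real.pi / 2) ^ 5 * A 0 : ℝ) :
          ℂ) * I := by
      rw [cb_eq, sm5, show 5 + 1 = 6 from rfl, c6]
      push_cast
      ring
    rw [e, (re_im _ _).2] at h
    exact h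
  have hJ : (cb A 4).re = A 4 - 6 * (Real.pi / 2) ^ 2 * A 2 + (Real.pi / 2) ^ 4 * A 0 := by
    have e : cb A 4 = ((A 4 - 6 * (Real.pi / 2) ^ 2 * A 2 + (Real.pi / 2) ^ 4 * A 0 : ℝ) : ℂ) +
        ((4 * (Real.pi / 2) * A 3 - 4 * (Real.pi / 2) ^ 3 * A 1 - (Real.pi / 2) ^ 5 / 5 : ℝ) :
          ℂ) * I := by
      rw [cb_eq, sm4, show 4 + 1 = 5 from rfl, c5]
      push_cast
      ring
    rw [e, (re_im _ _).1]
  refine ⟨(cb A 4).re, ?_, ?_⟩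
  · have h := (rot A hA 4 (by norm_num) (by norm_num)).2.2
    unfold IsJ24
    refine h.congr fun δ => ?_
    have e : (∫ x in Ioi δ, Kb x ^ 4 * Ib x ^ (6 - 4) / x) =
        ∫ x in Ioi δ, Ib x ^ 2 * Kb x ^ 4 / x :=
      setIntegral_congr_fun measurableSet_Ioi fun x _ => by
        show Kb x ^ 4 * Ib x ^ 2 / x = Ib x ^ 2 * Kb x ^ 4 / x
        rw [mul_comm (Kb x ^ 4)]
    rw [e]
    norm_num
  · exact alg Real.pi_pos e1 e2 e3 r3.2 r4.2 r5.2 r6.2 (w4 ▸ r4.1) (w5 ▸ r5.1) j3 j5 hJ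

end Pool.Agent.Helper11.EC.I_FIN
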